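import Mathlib
import Pool.Agent.W825.FP.Orb

set_option autoImplicit false

/-!
# Eigenfunctions of a permutation
-/

namespace Pool.Agent.TH56.RC

open Finset MulAction Pool.Agent.H634R3.PPC

section wt

variable {G : Type} [Group G] {X : Type} [Fintype X] [MulAction G X]

theorem zsmul_eq_iff (g : G) (x : X) (i : ℤ) :
    g ^ i • x = x ↔ (sz (Subgroup.zpowers g) (cls (Subgroup.zpowers g) x) : ℤ) ∣ i := by
  classical
  have h1 : sz (Subgroup.zpowers g) (cls (Subgroup.zpowers g) x) = period g x := by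
    rw [period_eq_minimalPeriod, minimalPeriod_eq_card]
    unfold sz
    rw [← Fintype.card_subtype]
    apply Fintype.card_congr
    refine Equiv.subtypeEquivRight fun y => ?_
    rw [cls_eq]
    constructor
    · rintro ⟨h, hh, rfl⟩
      exact ⟨⟨h, hh⟩, rfl⟩
    · rintro ⟨⟨h, hh⟩, rfl⟩
      exact ⟨h, hh, rfl⟩
  rw [h1, zpow_smul_eq_iff_period_dvd]

theorem sz_dvd_orderOf (g : G) (C : orbitRel.Quotient (Subgroup.zpowers g) X) :
    sz (Subgroup.zpowers g) C ∣ orderOf g := by
  obtain ⟨x, rfl⟩ := cls_surj _ C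
  have h := (zsmul_eq_iff g x (orderOf g : ℤ)).1 (by
    rw [zpow_natCast, pow_orderOf_eq_one, one_smul])
  exact_mod_cast h

omit [Fintype X] in
theorem ix_exists (g : G) (x : X) :
    ∃ i : ℤ, g ^ i • (cls (Subgroup.zpowers g) x).out = x := by
  have h : cls (Subgroup.zpowers g) x =
      cls (Subgroup.zpowers g) (cls (Subgroup.zpowers g) x).out := (cls_out _ _).symm
  obtain ⟨k, hk, hkx⟩ := (cls_eq _).1 h
  obtain ⟨i, rfl⟩ := Subgroup.mem_zpowers_iff.1 hk
  exact ⟨i, hkx⟩

/-- the exponent leading from the representative of its class to `x` -/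
noncomputable def ix (g : G) (x : X) : ℤ := (ix_exists g x).choose

theorem ix_spec (g : G) (x : X) : g ^ ix g x • (cls (Subgroup.zpowers g) x).out = x :=
  (ix_exists g x).choose_spec

variable {R : Type} [CommRing R] [IsDomain R]

open Classical in
/-- the eigenfunctions of `g` on the classes whose size is divisible by `e` -/
noncomputable def wt (g : G) (α : Rˣ) (e : ℕ) (x : X) : R :=
  if e ∣ sz (Subgroup.zpowers g) (cls (Subgroup.zpowers g) x) then ((α ^ ix g x : Rˣ) : R) else 0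

omit [Fintype X] in
theorem cls_zsmul (g : G) (i : ℤ) (x : X) :
    cls (Subgroup.zpowers g) (g ^ i • x) = cls (Subgroup.zpowers g) x :=
  cls_smul _ (Subgroup.mem_zpowers_iff.2 ⟨i, rfl⟩) x

omit [IsDomain R] in
theorem wt_zsmul {g : G} {α : Rˣ} {e : ℕ} (hα : IsPrimitiveRoot (α : R) e) (i : ℤ) (x : X) :
    wt g α e (g ^ i • x) = ((α ^ i : Rˣ) : R) * wt g α e x := by
  unfold wt
  rw [cls_zsmul]
  split_ifs with h
  · rw [← Units.val_mul, ← zpow_add]
    congr 1
    have hu : IsPrimitiveRoot α e := IsPrimitiveRoot.coe_units_iff.1 hα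
    have h1 : g ^ (ix g (g ^ i • x) - (i + ix g x)) • (cls (Subgroup.zpowers g) x).out =
        (cls (Subgroup.zpowers g) x).out := by
      have h2 := ix_spec g (g ^ i • x)
      rw [cls_zsmul] at h2
      have h3 := ix_spec g x
      rw [sub_eq_neg_add, zpow_add, mul_smul, h2, zpow_neg, inv_smul_eq_iff, zpow_add, mul_smul,
        h3]
    rw [zsmul_eq_iff, cls_out] at h1
    have h2 : (e : ℤ) ∣ ix g (g ^ i • x) - (i + ix g x) :=
      (Int.natCast_dvd_natCast.2 h).trans h1
    have h3 := (hu.zpow_eq_one_iff_dvd _).2 h2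
    rw [zpow_sub, mul_inv_eq_one] at h3
    exact h3
  · rw [mul_zero]

theorem eigen_zero {g : G} {α : Rˣ} {e : ℕ} (hα : IsPrimitiveRoot (α : R) e) (F : X → R)
    (hF : ∀ (i : ℤ) (x : X), F (g ^ i • x) = ((α ^ i : Rˣ) : R) * F x) (x : X)
    (hx : ¬ e ∣ sz (Subgroup.zpowers g) (cls (Subgroup.zpowers g) x)) : F x = 0 := by
  set m := sz (Subgroup.zpowers g) (cls (Subgroup.zpowers g) x) with hm
  have h1 : g ^ (m : ℤ) • x = x := (zsmul_eq_iff g x _).2 dvd_rfl
  have h2 := hF (m : ℤ) x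
  rw [h1] at h2
  have hu : IsPrimitiveRoot α e := IsPrimitiveRoot.coe_units_iff.1 hα
  have h3 : α ^ (m : ℤ) ≠ 1 := by
    intro h4
    rw [hu.zpow_eq_one_iff_dvd] at h4
    exact hx (by exact_mod_cast h4)
  have h4 : (((α ^ (m : ℤ) : Rˣ) : R) - 1) * F x = 0 := by
    rw [sub_mul, one_mul, ← h2, sub_self]
  rcases mul_eq_zero.1 h4 with h5 | h5
  · exact absurd (Units.ext (by rw [Units.val_one]; exact sub_eq_zero.1 h5)) h3
  · exact h5

theorem eigen_eq {g : G} {α : Rˣ} {e : ℕ} (hα : IsPrimitiveRoot (α : R) e) (F : X → R)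
    (hF : ∀ (i : ℤ) (x : X), F (g ^ i • x) = ((α ^ i : Rˣ) : R) * F x) (x : X) :
    F x = wt g α e x * F (cls (Subgroup.zpowers g) x).out := by
  by_cases h : e ∣ sz (Subgroup.zpowers g) (cls (Subgroup.zpowers g) x)
  · unfold wt
    rw [if_pos h, ← hF, ix_spec]
  · unfold wt
    rw [if_neg h, zero_mul]
    exact eigen_zero hα F hF x h

open Classical in
theorem sum_wt {g : G} {α : Rˣ} {e : ℕ} (hα : IsPrimitiveRoot (α : R) e) (he : e ≠ 1)
    (C : orbitRel.Quotient (Subgroup.zpowers g) X) :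
    ∑ x : X, (if cls (Subgroup.zpowers g) x = C then wt g α e x else 0) = 0 := by
  have h1 : ∑ x : X, (if cls (Subgroup.zpowers g) x = C then wt g α e x else 0) =
      (α : R) * ∑ x : X, (if cls (Subgroup.zpowers g) x = C then wt g α e x else 0) := by
    rw [mul_sum]
    rw [← Equiv.sum_comp (MulAction.toPerm (g ^ (1 : ℤ)))]
    refine sum_congr rfl fun x _ => ?_
    rw [MulAction.toPerm_apply, cls_zsmul, wt_zsmul hα, zpow_one]
    split_ifs
    · rfl
    · rw [mul_zero]
  have h2 : (α : R) ≠ 1 := by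
    intro h
    have := hα.unique (h ▸ IsPrimitiveRoot.one)
    exact he this
  have h3 : ((α : R) - 1) * ∑ x : X, (if cls (Subgroup.zpowers g) x = C then wt g α e x else 0) =
      0 := by
    rw [sub_mul, one_mul, ← h1, sub_self]
  rcases mul_eq_zero.1 h3 with h4 | h4
  · exact absurd (sub_eq_zero.1 h4) h2
  · exact h4

omit [IsDomain R] in
theorem wt_isUnit {g : G} {α : Rˣ} {e : ℕ} {x : X}
    (hx : e ∣ sz (Subgroup.zpowers g) (cls (Subgroup.zpowers g) x)) :
    IsUnit (wt g α e x) := by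
  unfold wt
  rw [if_pos hx]
  exact Units.isUnit _

end wt

end Pool.Agent.TH56.RC
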