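import Mathlib
import Pool.Agent.TH56.RC.Wt

set_option autoImplicit false

/-!
# The twisted Gram matrices
-/

namespace Pool.Agent.TH56.RC

open Finset MulAction Pool.Agent.H634R3.PPC

section gram

variable {G : Type} [Group G] {X : Type} [Fintype X] [MulAction G X]
variable {R : Type} [CommRing R]

/-- the classes whose size is divisible by `e` -/
abbrev EC (g : G) (e : ℕ) (X : Type) [Fintype X] [MulAction G X] : Type :=
  {C : orbitRel.Quotient (Subgroup.zpowers g) X // e ∣ sz (Subgroup.zpowers g) C}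

/-- the twist: `h` inverts `g` up to the automorphism `φ` -/
structure Tw (g h : G) (t : ℤ) (α : Rˣ) (φ : R →+* R) : Prop where
  nrm : Nrm (Subgroup.zpowers g) h
  conj : h⁻¹ * g * h = g ^ t
  inv : Units.map (φ : R →* R) (α ^ t) = α⁻¹

/-- the summand of the Gram matrix -/
noncomputable def ss (g h : G) (α : Rˣ) (e : ℕ) (φ : R →+* R) (x : X) : R :=
  wt g α e x * φ (wt g α e (h⁻¹ • x))

open Classical in
theorem sz_bar' (H : Subgroup G) {g : G} (hg : Nrm H g)
    (α : orbitRel.Quotient H X) : sz H (bar H hg α) = sz H α := by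
  unfold sz
  symm
  apply card_bij (fun x _ => g • x)
  · intro x hx
    rw [mem_filter] at hx ⊢
    exact ⟨mem_univ _, by rw [← hx.2]; rfl⟩
  · intro x _ y _ h
    exact MulAction.injective g h
  · intro y hy
    rw [mem_filter] at hy
    refine ⟨g⁻¹ • y, ?_, smul_inv_smul g y⟩
    rw [mem_filter]
    refine ⟨mem_univ _, ?_⟩
    apply (bar H hg).injective
    rw [bar_cls, smul_inv_smul, hy.2]

theorem conj_zpow' {g h : G} {t : ℤ} (hc : h⁻¹ * g * h = g ^ t) (i : ℤ) :
    h⁻¹ * g ^ i = g ^ (t * i) * h⁻¹ := by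
  have h1 : (h⁻¹ * g * h) ^ i = h⁻¹ * g ^ i * h := by
    have := _root_.conj_zpow (a := h⁻¹) (b := g) (i := i)
    rw [inv_inv] at this
    exact this
  rw [hc, ← zpow_mul] at h1
  rw [h1]
  group

theorem ss_zsmul {g h : G} {t : ℤ} {α : Rˣ} {e : ℕ} {φ : R →+* R} (T : Tw g h t α φ)
    (hα : IsPrimitiveRoot (α : R) e) (i : ℤ) (x : X) :
    ss g h α e φ (g ^ i • x) = ss g h α e φ x := by
  unfold ss
  rw [wt_zsmul hα, ← mul_smul, conj_zpow' T.conj, mul_smul, wt_zsmul hα, map_mul]
  have h1 : φ ((α ^ (t * i) : Rˣ) : R) = ((α⁻¹ ^ i : Rˣ) : R) := by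
    have h2 : ((Units.map (φ : R →* R) (α ^ (t * i)) : Rˣ) : R) = φ ((α ^ (t * i) : Rˣ) : R) := rfl
    rw [← h2, zpow_mul, map_zpow, T.inv]
  rw [h1]
  have h3 : ((α ^ i : Rˣ) : R) * ((α⁻¹ ^ i : Rˣ) : R) = 1 := by
    rw [← Units.val_mul, inv_zpow, mul_inv_cancel, Units.val_one]
  calc ((α ^ i : Rˣ) : R) * wt g α e x * (((α⁻¹ ^ i : Rˣ) : R) * φ (wt g α e (h⁻¹ • x))) =
      (((α ^ i : Rˣ) : R) * ((α⁻¹ ^ i : Rˣ) : R)) * (wt g α e x * φ (wt g α e (h⁻¹ • x))) := by
        ring
    _ = _ := by rw [h3, one_mul]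

open Classical in
/-- the Gram matrix -/
noncomputable def gm (g h : G) (α : Rˣ) (e : ℕ) (φ : R →+* R) (X : Type) [Fintype X]
    [MulAction G X] : Matrix (EC g e X) (EC g e X) R := fun C C' =>
  ∑ x : X, if cls (Subgroup.zpowers g) x = C.1 ∧ cls (Subgroup.zpowers g) (h⁻¹ • x) = C'.1 then
    ss g h α e φ x else 0

/-- the permutation of the classes -/
noncomputable def rho (g h : G) (hn : Nrm (Subgroup.zpowers g) h) (e : ℕ) (X : Type) [Fintype X]
    [MulAction G X] : Equiv.Perm (EC g e X) :=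
  (bar (Subgroup.zpowers g) hn).subtypeEquiv (fun C => by
    rw [sz_bar'])

omit [Fintype X] in
theorem cls_inv {g h : G} (hn : Nrm (Subgroup.zpowers g) h) (x : X)
    (C : orbitRel.Quotient (Subgroup.zpowers g) X) :
    cls (Subgroup.zpowers g) (h⁻¹ • x) = C ↔
      cls (Subgroup.zpowers g) x = bar (Subgroup.zpowers g) hn C := by
  obtain ⟨y, rfl⟩ := cls_surj _ C
  rw [bar_cls]
  constructor
  · intro h1
    have h2 := congrArg (bar (Subgroup.zpowers g) hn) h1
    rw [bar_cls, bar_cls, smul_inv_smul] at h2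
    exact h2
  · intro h1
    apply (bar (Subgroup.zpowers g) hn).injective
    rw [bar_cls, bar_cls, smul_inv_smul]
    exact h1

open Classical in
theorem gm_det {g h : G} {t : ℤ} {α : Rˣ} {e : ℕ} {φ : R →+* R} (T : Tw g h t α φ)
    (hα : IsPrimitiveRoot (α : R) e) (hsz : ∀ m : ℕ, m ∣ orderOf g → IsUnit (m : R)) :
    IsUnit (gm g h α e φ X).det := by
  let u : EC g e X → R := fun C => ∑ x : X, if cls (Subgroup.zpowers g) x = C.1 then
    ss g h α e φ x else 0
  have h1 : gm g h α e φ X = (Matrix.diagonal u).submatrix id (rho g h T.nrm e X) := by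
    ext C C'
    rw [Matrix.submatrix_apply, id, Matrix.diagonal_apply]
    unfold gm
    by_cases hC : C = rho g h T.nrm e X C'
    · rw [if_pos hC]
      refine sum_congr rfl fun x _ => ?_
      have h2 : (cls (Subgroup.zpowers g) x = C.1 ∧ cls (Subgroup.zpowers g) (h⁻¹ • x) = C'.1) ↔
          cls (Subgroup.zpowers g) x = C.1 := by
        constructor
        · exact fun h => h.1
        · intro h3
          refine ⟨h3, ?_⟩
          rw [cls_inv T.nrm, h3, hC]
          rfl
      simp only [h2]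
    · rw [if_neg hC]
      apply sum_eq_zero
      intro x _
      rw [if_neg]
      rintro ⟨h3, h4⟩
      apply hC
      apply Subtype.ext
      rw [cls_inv T.nrm] at h4
      rw [← h3, h4]
      rfl
  have hu : ∀ C : EC g e X, IsUnit (u C) := by
    rintro ⟨C, hC⟩
    have h2 : u ⟨C, hC⟩ = (sz (Subgroup.zpowers g) C : R) * ss g h α e φ C.out := by
      have h3 : u ⟨C, hC⟩ = ∑ x : X, if cls (Subgroup.zpowers g) x = C then
          ss g h α e φ C.out else 0 := by
        refine sum_congr rfl fun x _ => ?_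
        show (if cls (Subgroup.zpowers g) x = C then _ else _) = _
        split_ifs with h4
        · have h5 := ix_spec g x
          rw [h4] at h5
          conv_lhs => rw [← h5, ss_zsmul T hα]
        · rfl
      rw [h3, ← sum_filter, sum_const, nsmul_eq_mul]
      rfl
    rw [h2]
    refine (hsz _ (sz_dvd_orderOf g C)).mul ?_
    unfold ss
    refine (wt_isUnit ?_).mul ((wt_isUnit ?_).map φ)
    · rw [cls_out]; exact hC
    · have h6 : cls (Subgroup.zpowers g) (h⁻¹ • C.out) =
          (bar (Subgroup.zpowers g) T.nrm).symm C := by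
        rw [cls_inv T.nrm, Equiv.apply_symm_apply, cls_out]
      rw [h6, ← sz_bar' _ T.nrm, Equiv.apply_symm_apply]
      exact hC
  rw [h1, Matrix.det_permute', Matrix.det_diagonal]
  refine IsUnit.mul ?_ ?_
  · rcases Int.units_eq_one_or (Equiv.Perm.sign (rho g h T.nrm e X)) with h2 | h2 <;> rw [h2] <;>
      simp
  · rw [IsUnit.prod_univ_iff]
    exact hu

end gram

end Pool.Agent.TH56.RC
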