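import Mathlib
import Pool.Agent.TH56.RC.Gram
import Pool.Agent.TH56.RC.Wit

set_option autoImplicit false

/-!
# The incidence matrix on the eigenspaces
-/

namespace Pool.Agent.TH56.RC

open Finset MulAction Pool.Agent.H634R3.PPC

section key

variable {G : Type} [Group G] {P L : Type} [Fintype P] [Fintype L] [MulAction G P]
  [MulAction G L] {inc : P → L → Prop}
variable {R : Type} [CommRing R]

open Classical in
/-- the image of an eigenfunction -/
noncomputable def ff (inc : P → L → Prop) (g : G) (α : Rˣ) (e : ℕ)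
    (C : orbitRel.Quotient (Subgroup.zpowers g) P) (l : L) : R :=
  ∑ x : P, if cls (Subgroup.zpowers g) x = C ∧ inc x l then wt g α e x else 0

omit [Fintype L] in
theorem ff_zsmul (hinc : ∀ (g : G) (p : P) (l : L), inc (g • p) (g • l) ↔ inc p l)
    {g : G} {α : Rˣ} {e : ℕ} (hα : IsPrimitiveRoot (α : R) e)
    (C : orbitRel.Quotient (Subgroup.zpowers g) P) (i : ℤ) (l : L) :
    ff inc g α e C (g ^ i • l) = ((α ^ i : Rˣ) : R) * ff inc g α e C l := by
  classical
  unfold ff
  rw [← Equiv.sum_comp (MulAction.toPerm (g ^ i)), mul_sum]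
  refine sum_congr rfl fun x _ => ?_
  rw [MulAction.toPerm_apply, cls_zsmul, wt_zsmul hα, hinc]
  split_ifs
  · rfl
  · rw [mul_zero]

open Classical in
/-- the matrix of the incidence relation on the eigenspaces -/
noncomputable def am (inc : P → L → Prop) (g : G) (α : Rˣ) (e : ℕ) :
    Matrix (EC g e L) (EC g e P) R := fun D C => ff inc g α e C.1 D.1.out

variable [IsDomain R]

open Classical in
theorem step1 (hinc : ∀ (g : G) (p : P) (l : L), inc (g • p) (g • l) ↔ inc p l)
    {g h : G} {α : Rˣ} {e : ℕ} {φ : R →+* R}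
    (hα : IsPrimitiveRoot (α : R) e) (hn : Nrm (Subgroup.zpowers g) h) (C C' : EC g e P) :
    ((am inc g α e).transpose * gm g h α e φ L * (am inc g α e).map φ) C C' =
      ∑ l : L, ff inc g α e C.1 l * φ (ff inc g α e C'.1 (h⁻¹ • l)) := by
  rw [Matrix.mul_apply]
  simp only [Matrix.mul_apply, Matrix.transpose_apply, Matrix.map_apply]
  unfold gm
  have e1 : ∀ D' : EC g e L, (∑ D : EC g e L, am inc g α e D C * ∑ x : L,
      (if cls (Subgroup.zpowers g) x = D.1 ∧ cls (Subgroup.zpowers g) (h⁻¹ • x) = D'.1 then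
        ss g h α e φ x else 0)) * φ (am inc g α e D' C') =
      ∑ x : L, ∑ D : EC g e L, (if cls (Subgroup.zpowers g) x = D.1 ∧
        cls (Subgroup.zpowers g) (h⁻¹ • x) = D'.1 then
        ss g h α e φ x * am inc g α e D C * φ (am inc g α e D' C') else 0) := by
    intro D'
    rw [sum_comm, sum_mul]
    refine sum_congr rfl fun D _ => ?_
    rw [mul_sum, sum_mul]
    refine sum_congr rfl fun x _ => ?_
    split_ifs
    · ring
    · ring
  rw [sum_congr rfl (fun D' _ => e1 D'), sum_comm]
  refine sum_congr rfl fun l _ => ?_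
  have h1 := eigen_eq hα (ff inc g α e C.1) (ff_zsmul hinc hα C.1) l
  have h2 := eigen_eq hα (ff inc g α e C'.1) (ff_zsmul hinc hα C'.1) (h⁻¹ • l)
  rw [h1, h2, map_mul]
  by_cases hl : e ∣ sz (Subgroup.zpowers g) (cls (Subgroup.zpowers g) l)
  · have hl' : e ∣ sz (Subgroup.zpowers g) (cls (Subgroup.zpowers g) (h⁻¹ • l)) := by
      have h6 : cls (Subgroup.zpowers g) (h⁻¹ • l) =
          (bar (Subgroup.zpowers g) hn).symm (cls (Subgroup.zpowers g) l) := by
        rw [cls_inv hn, Equiv.apply_symm_apply]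
      rw [h6, ← sz_bar' _ hn, Equiv.apply_symm_apply]
      exact hl
    rw [sum_eq_single (⟨cls (Subgroup.zpowers g) (h⁻¹ • l), hl'⟩ : EC g e L)]
    · rw [sum_eq_single (⟨cls (Subgroup.zpowers g) l, hl⟩ : EC g e L)]
      · rw [if_pos ⟨rfl, rfl⟩]
        unfold ss am
        ring
      · intro D _ hD
        rw [if_neg]
        rintro ⟨h3, _⟩
        exact hD (Subtype.ext h3.symm)
      · intro h3
        exact absurd (mem_univ _) h3
    · intro D' _ hD'
      apply sum_eq_zero
      intro D _
      rw [if_neg]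
      rintro ⟨_, h3⟩
      exact hD' (Subtype.ext h3.symm)
    · intro h3
      exact absurd (mem_univ _) h3
  · have h3 : wt g α e l = (0 : R) := by unfold wt; rw [if_neg hl]
    rw [h3]
    rw [sum_eq_zero]
    · ring
    · intro D' _
      apply sum_eq_zero
      intro D _
      rw [if_neg]
      rintro ⟨h4, _⟩
      exact hl (by rw [h4]; exact D.2)

theorem step2 (hinc : ∀ (g : G) (p : P) (l : L), inc (g • p) (g • l) ↔ inc p l)
    {n la : ℕ} (D : Des inc n la) {g h : G} {α : Rˣ} {e : ℕ} (he : e ≠ 1) {φ : R →+* R}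
    (hα : IsPrimitiveRoot (α : R) e) (C C' : EC g e P) :
    ∑ l : L, ff inc g α e C.1 l * φ (ff inc g α e C'.1 (h⁻¹ • l)) =
      (n : R) * gm g h α e φ P C C' := by
  classical
  have e1 : ∀ l : L, ff inc g α e C.1 l * φ (ff inc g α e C'.1 (h⁻¹ • l)) =
      ∑ x : P, ∑ y : P, (if cls (Subgroup.zpowers g) x = C.1 then wt g α e x else 0) *
        φ (if cls (Subgroup.zpowers g) y = C'.1 then wt g α e y else 0) *
        (if inc x l ∧ inc (h • y) l then 1 else 0) := by
    intro l
    unfold ff
    rw [map_sum, sum_mul_sum]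
    refine sum_congr rfl fun x _ => sum_congr rfl fun y _ => ?_
    have h1 : inc y (h⁻¹ • l) ↔ inc (h • y) l := by
      rw [← hinc h, smul_inv_smul]
    simp only [h1]
    by_cases hx : cls (Subgroup.zpowers g) x = C.1 <;>
      by_cases hy : cls (Subgroup.zpowers g) y = C'.1 <;>
      by_cases hxl : inc x l <;> by_cases hyl : inc (h • y) l <;>
      simp [hx, hy, hxl, hyl]
  rw [sum_congr rfl (fun l _ => e1 l), sum_comm]
  have e2 : ∀ x : P, ∑ l : L, ∑ y : P, (if cls (Subgroup.zpowers g) x = C.1 then
        wt g α e x else 0) * φ (if cls (Subgroup.zpowers g) y = C'.1 then wt g α e y else 0) *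
        (if inc x l ∧ inc (h • y) l then 1 else 0) =
      ∑ y : P, (if cls (Subgroup.zpowers g) x = C.1 then wt g α e x else 0) *
        φ (if cls (Subgroup.zpowers g) y = C'.1 then wt g α e y else 0) *
        ((if x = h • y then (n : R) else 0) + (la : R)) := by
    intro x
    rw [sum_comm]
    refine sum_congr rfl fun y _ => ?_
    rw [← mul_sum]
    congr 1
    have h2 := D.row x (h • y)
    have h3 : ∑ l : L, (if inc x l ∧ inc (h • y) l then (1 : R) else 0) =
        ((univ.filter (fun l : L => inc x l ∧ inc (h • y) l)).card : R) := by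
      rw [card_filter]
      push_cast
      rfl
    rw [h3, h2]
    push_cast
    rfl
  rw [sum_congr rfl (fun x _ => e2 x)]
  simp only [mul_add, sum_add_distrib]
  have e3 : ∑ x : P, ∑ y : P, (if cls (Subgroup.zpowers g) x = C.1 then wt g α e x else 0) *
        φ (if cls (Subgroup.zpowers g) y = C'.1 then wt g α e y else 0) * (la : R) = 0 := by
    have h4 : ∀ x : P, ∑ y : P, (if cls (Subgroup.zpowers g) x = C.1 then wt g α e x else 0) *
        φ (if cls (Subgroup.zpowers g) y = C'.1 then wt g α e y else 0) * (la : R) =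
        (if cls (Subgroup.zpowers g) x = C.1 then wt g α e x else 0) * (φ (∑ y : P,
          if cls (Subgroup.zpowers g) y = C'.1 then wt g α e y else 0) * (la : R)) := by
      intro x
      rw [map_sum, sum_mul, mul_sum]
      refine sum_congr rfl fun y _ => ?_
      ring
    rw [sum_congr rfl (fun x _ => h4 x), sum_wt hα he, map_zero, zero_mul]
    simp
  rw [e3, add_zero]
  unfold gm
  rw [mul_sum]
  refine sum_congr rfl fun x _ => ?_
  rw [sum_eq_single (h⁻¹ • x)]
  · rw [if_pos (smul_inv_smul h x).symm]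
    unfold ss
    by_cases hx : cls (Subgroup.zpowers g) x = C.1 <;>
      by_cases hy : cls (Subgroup.zpowers g) (h⁻¹ • x) = C'.1
    · rw [if_pos hx, if_pos hy, if_pos ⟨hx, hy⟩]; ring
    · rw [if_pos hx, if_neg hy, if_neg (fun h0 => hy h0.2), map_zero]; ring
    · simp [hx]
    · simp [hx]
  · intro y _ hy
    have h5 : ¬ x = h • y := by
      rintro rfl
      exact hy (inv_smul_smul h y).symm
    rw [if_neg h5, mul_zero]
  · intro h3
    exact absurd (mem_univ _) h3

open Classical in
theorem key (hinc : ∀ (g : G) (p : P) (l : L), inc (g • p) (g • l) ↔ inc p l)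
    {n la : ℕ} (D : Des inc n la) {g h : G} {α : Rˣ} {e : ℕ} (he : e ≠ 1) {φ : R →+* R}
    (hα : IsPrimitiveRoot (α : R) e) (hn : Nrm (Subgroup.zpowers g) h) :
    (am inc g α e).transpose * gm g h α e φ L * (am inc g α e).map φ =
      (n : R) • gm g h α e φ P := by
  ext C C'
  rw [step1 hinc hα hn, step2 hinc D he hα, Matrix.smul_apply, smul_eq_mul]

end key

theorem card_le_of_det {R : Type} [CommRing R] [IsDomain R] {m l : Type} [Fintype m] [Fintype l]
    [DecidableEq m] (M : Matrix m l R) (N : Matrix l m R) (h : (M * N).det ≠ 0) :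
    Fintype.card m ≤ Fintype.card l := by
  classical
  let K := FractionRing R
  let ψ : R →+* K := algebraMap R K
  have hinj : Function.Injective ψ := IsFractionRing.injective R K
  have h1 : ((M.map ψ) * (N.map ψ)).det ≠ 0 := by
    rw [← Matrix.map_mul]
    have h2 := RingHom.map_det ψ (M * N)
    intro h3
    apply h
    apply hinj
    rw [map_zero, h2]
    exact h3
  have h2 : ((M.map ψ) * (N.map ψ)).rank = Fintype.card m :=
    Matrix.rank_of_isUnit _ ((Matrix.isUnit_iff_isUnit_det _).2 (isUnit_iff_ne_zero.2 h1))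
  rw [← h2]
  exact (Matrix.rank_mul_le_left _ _).trans (Matrix.rank_le_card_width _)

end Pool.Agent.TH56.RC
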