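import Mathlib
import Pool.Agent.TH56.RC.Key

set_option autoImplicit false

/-!
# The classes of size divisible by `e` are even in number
-/

namespace Pool.Agent.TH56.RC

open Finset MulAction Pool.Agent.H634R3.PPC

section ev

variable {G : Type} [Group G] {P L : Type} [Fintype P] [Fintype L] [MulAction G P]
  [MulAction G L] {inc : P → L → Prop}

theorem des_dual {n la : ℕ} (D : Des inc n la) : Des (fun (l : L) (x : P) => inc x l) n la :=
  ⟨D.col, D.row, D.card.symm, D.npos⟩

open Classical in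
theorem even_EC (hinc : ∀ (g : G) (p : P) (l : L), inc (g • p) (g • l) ↔ inc p l)
    {n la : ℕ} (D : Des inc n la) {g h : G} {p : ℕ} (hp : p.Prime) (hpg : ¬ p ∣ orderOf g)
    {j : ℕ} (hj : h⁻¹ * g ^ p ^ j * h = g⁻¹) {a u : ℕ} (ha : Odd a) (hu : ¬ p ∣ u)
    (hN : n = p ^ a * u) {e : ℕ} (he : e ≠ 1) (heg : e ∣ orderOf g) :
    Even (Fintype.card (EC g e P)) := by
  have hpe : ¬ p ∣ e := fun h1 => hpg (h1.trans heg)
  obtain ⟨R, iR, iD, φ, α, hα, hφ, hunit, heven, hp0⟩ := witt_setup p hp e hpe j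
  have hcop : (p ^ j).Coprime (orderOf g) :=
    Nat.Coprime.pow_left j ((Nat.Prime.coprime_iff_not_dvd hp).2 hpg)
  obtain ⟨s, hs⟩ := exists_pow_eq_self_of_coprime hcop
  have hconj : h⁻¹ * g * h = g ^ (-(s : ℤ)) := by
    have h1 : h⁻¹ * g * h = (h⁻¹ * g ^ p ^ j * h) ^ s := by
      have h2 : (h⁻¹ * g ^ p ^ j * h) ^ s = h⁻¹ * (g ^ p ^ j) ^ s * h := by
        have := _root_.conj_pow (a := h⁻¹) (b := g ^ p ^ j) (i := s)
        rw [inv_inv] at this
        exact this
      rw [h2, hs]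
    rw [h1, hj, inv_pow, zpow_neg, zpow_natCast]
  have hnrm : Nrm (Subgroup.zpowers g) h := by
    constructor
    · intro k hk
      obtain ⟨i, rfl⟩ := Subgroup.mem_zpowers_iff.1 hk
      have h1 : h * g * h⁻¹ = (g ^ p ^ j)⁻¹ := by
        have h2 : g ^ p ^ j = h * g⁻¹ * h⁻¹ := by
          rw [← hj]; group
        rw [h2]; group
      have h3 : h * g ^ i * h⁻¹ = (h * g * h⁻¹) ^ i := (_root_.conj_zpow).symm
      rw [h3, h1]
      exact Subgroup.zpow_mem _ (Subgroup.inv_mem _ (Subgroup.pow_mem _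
        (Subgroup.mem_zpowers g) _)) _
    · intro k hk
      obtain ⟨i, rfl⟩ := Subgroup.mem_zpowers_iff.1 hk
      have h3 : h⁻¹ * g ^ i * h = (h⁻¹ * g * h) ^ i := by
        have := _root_.conj_zpow (a := h⁻¹) (b := g) (i := i)
        rw [inv_inv] at this
        exact this.symm
      rw [h3, hconj]
      exact Subgroup.zpow_mem _ (Subgroup.zpow_mem _ (Subgroup.mem_zpowers g) _) _
  have hinv : Units.map (φ : R →* R) (α ^ (-(s : ℤ))) = α⁻¹ := by
    have hu1 : Units.map (φ : R →* R) α = α ^ p ^ j := by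
      apply Units.ext
      rw [Units.coe_map, Units.val_pow_eq_pow_val]
      exact hφ
    have h1 : α ^ (p ^ j * s) = α := by
      have h2 : g ^ (p ^ j * s) = g ^ 1 := by rw [pow_mul, hs, pow_one]
      have h3 := pow_eq_pow_iff_modEq.1 h2
      have h4 : p ^ j * s ≡ 1 [MOD e] := h3.of_dvd heg
      have hu : IsPrimitiveRoot α e := IsPrimitiveRoot.coe_units_iff.1 hα
      have h5 : α ^ (p ^ j * s) = α ^ 1 := by
        rw [pow_eq_pow_iff_modEq, ← hu.eq_orderOf]
        exact h4
      rw [h5, pow_one]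
    rw [map_zpow, hu1, zpow_neg, zpow_natCast, ← pow_mul, h1]
  have T : Tw g h (-(s : ℤ)) α φ := ⟨hnrm, hconj, hinv⟩
  have hsz : ∀ m : ℕ, m ∣ orderOf g → IsUnit (m : R) :=
    fun m hm => hunit m (fun h1 => hpg (h1.trans hm))
  have hdP : IsUnit (gm g h α e φ P).det := gm_det T hα hsz
  have hdL : IsUnit (gm g h α e φ L).det := gm_det T hα hsz
  have hn : (n : R) = (p : R) ^ a * (u : R) := by rw [hN]; push_cast; ring
  have hn0 : (n : R) ≠ 0 := by
    rw [hn]
    exact mul_ne_zero (pow_ne_zero _ hp0) (hunit u hu).ne_zero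
  have k1 := key hinc D he hα hnrm (φ := φ)
  have hinc' : ∀ (g : G) (l : L) (x : P), (fun (l : L) (x : P) => inc x l) (g • l) (g • x) ↔
      (fun (l : L) (x : P) => inc x l) l x := fun g l x => hinc g x l
  have k2 := key hinc' (des_dual D) he hα hnrm (φ := φ)
  have c1 : Fintype.card (EC g e P) ≤ Fintype.card (EC g e L) := by
    apply card_le_of_det ((am inc g α e).transpose * gm g h α e φ L) ((am inc g α e).map φ)
    rw [k1, Matrix.det_smul]
    exact mul_ne_zero (pow_ne_zero _ hn0) hdP.ne_zero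
  have c2 : Fintype.card (EC g e L) ≤ Fintype.card (EC g e P) := by
    apply card_le_of_det ((am (fun (l : L) (x : P) => inc x l) g α e).transpose *
      gm g h α e φ P) ((am (fun (l : L) (x : P) => inc x l) g α e).map φ)
    rw [k2, Matrix.det_smul]
    exact mul_ne_zero (pow_ne_zero _ hn0) hdL.ne_zero
  let ε : EC g e P ≃ EC g e L := Fintype.equivOfCardEq (le_antisymm c1 c2)
  let A : Matrix (EC g e P) (EC g e P) R := (am inc g α e).submatrix ε id
  have k3 : A.transpose * (gm g h α e φ L).submatrix ε ε * A.map φ =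
      (n : R) • gm g h α e φ P := by
    rw [← k1]
    have h1 : A.transpose = (am inc g α e).transpose.submatrix id ε := rfl
    have h2 : A.map φ = ((am inc g α e).map φ).submatrix ε id := rfl
    rw [h1, h2, Matrix.submatrix_mul_equiv, Matrix.submatrix_mul_equiv, Matrix.submatrix_id_id]
  have k4 := congrArg Matrix.det k3
  rw [Matrix.det_mul, Matrix.det_mul, Matrix.det_transpose, Matrix.det_submatrix_equiv_self,
    Matrix.det_smul] at k4
  have h5 : (A.map φ).det = φ A.det := (RingHom.map_det φ A).symm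
  rw [h5, hn] at k4
  obtain ⟨dL, hdL'⟩ := hdL
  rw [← hdL'] at k4
  have k5 : A.det * φ A.det = (p : R) ^ (a * Fintype.card (EC g e P)) *
      ((u : R) ^ Fintype.card (EC g e P) * (gm g h α e φ P).det * ((dL⁻¹ : Rˣ) : R)) := by
    have h6 : A.det * φ A.det = (A.det * (dL : R) * φ A.det) * ((dL⁻¹ : Rˣ) : R) := by
      have h7 : (dL : R) * ((dL⁻¹ : Rˣ) : R) = 1 := Units.mul_inv dL
      calc A.det * φ A.det = A.det * φ A.det * ((dL : R) * ((dL⁻¹ : Rˣ) : R)) := by
            rw [h7, mul_one]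
        _ = _ := by ring
    rw [h6, k4, mul_pow, ← pow_mul]
    ring
  have k6 := heven A.det _ _ ((((hunit u hu).pow _).mul hdP).mul (Units.isUnit _)) k5
  exact (Nat.even_mul.1 k6).resolve_left (Nat.not_even_iff_odd.2 ha)

end ev

end Pool.Agent.TH56.RC
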