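import Mathlib
import Pool.Agent.TH56.RC.Ev

set_option autoImplicit false

/-!
# The parity of the number of fixed points
-/

namespace Pool.Agent.TH56.RC

open Finset MulAction Pool.Agent.H634R3.PPC

section par

variable {G : Type} [Group G] {X : Type} [Fintype X] [MulAction G X]

open Classical in
theorem even_sz (g : G) (hg : 0 < orderOf g)
    (h : ∀ e : ℕ, e ≠ 1 → e ∣ orderOf g → Even (Fintype.card (EC g e X))) :
    ∀ (k d : ℕ), orderOf g - d ≤ k → d ≠ 1 → Even (univ.filter
      (fun C : orbitRel.Quotient (Subgroup.zpowers g) X => sz (Subgroup.zpowers g) C = d)).card := by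
  intro k
  induction k using Nat.strong_induction_on with
  | _ k ih =>
    intro d hk hd
    by_cases hdg : d ∣ orderOf g
    · have hd0 : 0 < d := Nat.pos_of_dvd_of_pos hdg hg
      have h1 := h d hd hdg
      rw [Fintype.card_subtype] at h1
      have h2 : (univ.filter (fun C : orbitRel.Quotient (Subgroup.zpowers g) X =>
          d ∣ sz (Subgroup.zpowers g) C)).card =
          ∑ m ∈ (orderOf g).divisors.filter (d ∣ ·), (univ.filter
          (fun C : orbitRel.Quotient (Subgroup.zpowers g) X =>
            sz (Subgroup.zpowers g) C = m)).card := by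
        rw [card_eq_sum_card_fiberwise (f := fun C => sz (Subgroup.zpowers g) C)
          (t := (orderOf g).divisors.filter (d ∣ ·))]
        · refine sum_congr rfl fun m hm => ?_
          rw [filter_filter]
          congr 1
          ext C
          simp only [mem_filter, mem_univ, true_and]
          constructor
          · exact fun h3 => h3.2
          · intro h3
            exact ⟨by rw [h3]; exact (mem_filter.1 hm).2, h3⟩
        · intro C hC
          rw [mem_coe, mem_filter] at hC
          rw [mem_coe, mem_filter, Nat.mem_divisors]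
          exact ⟨⟨sz_dvd_orderOf g C, hg.ne'⟩, hC.2⟩
      have hmem : d ∈ (orderOf g).divisors.filter (d ∣ ·) := by
        rw [mem_filter, Nat.mem_divisors]
        exact ⟨⟨hdg, hg.ne'⟩, dvd_rfl⟩
      rw [h2, ← add_sum_erase _ _ hmem] at h1
      have h3 : Even (∑ m ∈ ((orderOf g).divisors.filter (d ∣ ·)).erase d, (univ.filter
          (fun C : orbitRel.Quotient (Subgroup.zpowers g) X =>
            sz (Subgroup.zpowers g) C = m)).card) := by
        apply even_sum
        intro m hm
        rw [mem_erase, mem_filter, Nat.mem_divisors] at hm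
        obtain ⟨hmd, ⟨hmg, _⟩, hdm⟩ := hm
        have hm0 : 0 < m := Nat.pos_of_dvd_of_pos hmg hg
        have hlt : d < m := lt_of_le_of_ne (Nat.le_of_dvd hm0 hdm) (Ne.symm hmd)
        have hmle : m ≤ orderOf g := Nat.le_of_dvd hg hmg
        apply ih (orderOf g - m) (by omega) m le_rfl
        omega
      exact (Nat.even_add.1 h1).2 h3
    · have h3 : (univ.filter (fun C : orbitRel.Quotient (Subgroup.zpowers g) X =>
          sz (Subgroup.zpowers g) C = d)) = ∅ := by
        rw [filter_eq_empty_iff]
        intro C _ hC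
        exact hdg (hC ▸ sz_dvd_orderOf g C)
      rw [h3]
      simp

open Classical in
theorem sum_sz (H : Subgroup G) :
    ∑ C : orbitRel.Quotient H X, sz H C = Fintype.card X := by
  unfold sz
  rw [← card_univ (α := X), card_eq_sum_card_fiberwise (f := fun x => cls H x) (t := univ)]
  exact fun _ _ => mem_univ _

open Classical in
theorem card_sz_one (g : G) :
    (univ.filter (fun C : orbitRel.Quotient (Subgroup.zpowers g) X =>
      sz (Subgroup.zpowers g) C = 1)).card = (univ.filter (fun x : X => g • x = x)).card := by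
  symm
  apply card_bij (fun x _ => cls (Subgroup.zpowers g) x)
  · intro x hx
    rw [mem_filter] at hx ⊢
    refine ⟨mem_univ _, ?_⟩
    have h1 := (zsmul_eq_iff g x 1).1 (by rw [zpow_one]; exact hx.2)
    have h2 : sz (Subgroup.zpowers g) (cls (Subgroup.zpowers g) x) ∣ 1 := by exact_mod_cast h1
    exact Nat.dvd_one.1 h2
  · intro x hx y hy hxy
    rw [mem_filter] at hx hy
    obtain ⟨k, hk, hkx⟩ := (cls_eq _).1 hxy
    obtain ⟨i, rfl⟩ := Subgroup.mem_zpowers_iff.1 hk
    have h1 := (zsmul_eq_iff g y 1).1 (by rw [zpow_one]; exact hy.2)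
    have h2 := (zsmul_eq_iff g y i).2 (h1.trans (one_dvd i))
    rw [← hkx, h2]
  · intro C hC
    rw [mem_filter] at hC
    obtain ⟨x, rfl⟩ := cls_surj _ C
    refine ⟨x, ?_, rfl⟩
    rw [mem_filter]
    refine ⟨mem_univ _, ?_⟩
    have h1 := (zsmul_eq_iff g x 1).2 (by rw [hC.2]; norm_num)
    rwa [zpow_one] at h1

open Classical in
theorem fix_par (g : G) (hg : 0 < orderOf g)
    (h : ∀ e : ℕ, e ≠ 1 → e ∣ orderOf g → Even (Fintype.card (EC g e X))) :
    Odd (univ.filter (fun x : X => g • x = x)).card ↔ Odd (Fintype.card X) := by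
  have h0 := even_sz g hg h (orderOf g)
  rw [← card_sz_one g, ← sum_sz (X := X) (Subgroup.zpowers g)]
  have h1 : ∑ C : orbitRel.Quotient (Subgroup.zpowers g) X, sz (Subgroup.zpowers g) C =
      ∑ m ∈ (orderOf g).divisors, ∑ C ∈ univ.filter
        (fun C : orbitRel.Quotient (Subgroup.zpowers g) X => sz (Subgroup.zpowers g) C = m),
        sz (Subgroup.zpowers g) C := by
    rw [sum_fiberwise_of_maps_to]
    intro C _
    rw [Nat.mem_divisors]
    exact ⟨sz_dvd_orderOf g C, hg.ne'⟩
  have h2 : ∀ m : ℕ, ∑ C ∈ univ.filter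
        (fun C : orbitRel.Quotient (Subgroup.zpowers g) X => sz (Subgroup.zpowers g) C = m),
        sz (Subgroup.zpowers g) C = (univ.filter
        (fun C : orbitRel.Quotient (Subgroup.zpowers g) X =>
          sz (Subgroup.zpowers g) C = m)).card * m := by
    intro m
    rw [sum_congr rfl (fun C hC => (mem_filter.1 hC).2), sum_const, smul_eq_mul]
  rw [h1, sum_congr rfl (fun m _ => h2 m)]
  have hmem : 1 ∈ (orderOf g).divisors := by
    rw [Nat.mem_divisors]
    exact ⟨one_dvd _, hg.ne'⟩
  rw [← add_sum_erase _ _ hmem, mul_one]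
  have h3 : Even (∑ m ∈ (orderOf g).divisors.erase 1, (univ.filter
        (fun C : orbitRel.Quotient (Subgroup.zpowers g) X =>
          sz (Subgroup.zpowers g) C = m)).card * m) := by
    apply even_sum
    intro m hm
    rw [mem_erase] at hm
    exact (h0 m (by omega) hm.1).mul_right m
  rw [Nat.odd_add]
  simp only [h3, iff_true]

end par

end Pool.Agent.TH56.RC
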